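import Pool.Agent.Y992.HL.Stm
import Pool.Agent.W341.UG.Main
import Pool.Agent.H983R2.GC.Removal

set_option autoImplicit false
set_option linter.unusedSectionVars false
set_option linter.unusedVariables false

/-! Project HL: assembly of the influence bound. -/

namespace Pool.Agent.Y992.HL

open Finset Pool.Agent.H983R2.GC Pool.Agent.W341.UG

section
variable {V C : Type} [Fintype V] [DecidableEq V] [Fintype C] [DecidableEq C]

theorem LVD_mono {G : SimpleGraph V} {D : V → V → ℕ} {c0 : C} {s N N' k : ℕ}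
    {b b' r r' M M' : ℝ}
    (h : LVD G D c0 s N k b r M) (hN : N' ≤ N) (hb0 : 0 ≤ b) (hb : b ≤ b') (hr0 : 0 ≤ r)
    (hr : r ≤ r') (hM : M ≤ M') : LVD G D c0 s N' k b' r' M' := by
  intro R L f W t hR hf hL hW hk ht
  obtain ⟨h1, h2, h3⟩ := h R L f W t (hR.trans hN) hf hL hW hk ht
  refine ⟨h1.trans (by gcongr), fun c => (h2 c).trans (by gcongr), fun c => (h3 c).trans hM⟩

theorem SmI_mono {G : SimpleGraph V} {c0 : C} {s : ℕ} {R : Finset V} {h : V} {U : Finset V}
    {δ δ' : ℝ} (H : SmI G c0 s R h U δ) (hδ : δ ≤ δ') : SmI G c0 s R h U δ' := by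
  intro R' L b c t U' h1 h2 h3 h4 h5 h6 h7
  exact (H R' L b c t U' h1 h2 h3 h4 h5 h6 h7).trans hδ

theorem BRN_mono {G : SimpleGraph V} {D : V → V → ℕ} {c0 : C} {s N k : ℕ} {δ δ' : ℝ}
    (H : BRN G D c0 s N k δ) (hδ : δ ≤ δ') : BRN G D c0 s N k δ' := by
  intro R v W h1 h2 h3 h4
  have hh := H R v W h1 h2 h3 h4
  exact ⟨hh.sub, hh.slf, hh.slo, fun g hg => SmI_mono (hh.far g hg) hδ,
    fun g hg h hh' hgh => SmI_mono (hh.ovl g hg h hh' hgh) hδ,
    fun g hg => SmI_mono (hh.sib g hg) hδ⟩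

theorem IBD_zero (G : SimpleGraph V) (D : V → V → ℕ) (c0 : C) (s j : ℕ) (A : ℝ) (hA : 0 ≤ A) :
    IBD G D c0 s 0 j A := by
  intro R L v b c F W h1 h2 h3 h4 h5 h6 h7
  have hR : R = ∅ := Finset.card_eq_zero.1 (by omega)
  subst hR
  have : Col G c0 ∅ (era L (nb G ∅ v) b) = Col G c0 ∅ (era L (nb G ∅ v) c) :=
    rem_Col_congr G c0 ∅ _ _ (fun v hv => absurd hv (Finset.notMem_empty v))
  unfold EE
  rw [this]
  simpa using hA

end

theorem main_HL (h0 : S_LV0') (hLV : S_LV') (hLI : S_LINF') (hR : S_REV') (hLY : S_LY')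
    (hN : S_NUM') (hH : S_HS) (hBR : S_BR) : S_INF' := by
  intro ε hε hε1 B
  obtain ⟨lam, M, δ, θ, A, k, s0, hlam0, hlam1, hM, hδ, hθ0, hθ1, hk, hs0, h1, h2, h3, hA,
    h4, h5⟩ := hN ε hε hε1 B
  have hB0 : 0 ≤ ∑ i ∈ Finset.range (k + 1), (2 / ε) ^ (i + 1) :=
    Finset.sum_nonneg fun i _ => by positivity
  have hA0 : 0 ≤ A := by rw [hA]; linarith
  set e := δ / ε * (1 + 2 / ε + 4 * M) with he
  have he0 : 0 ≤ e := by rw [he]; positivity
  have hl1 : 0 < 1 - lam := by linarith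
  set q4 := 4 * e / (1 - lam) ^ 2 with hq4
  have hq40 : 0 ≤ q4 := by rw [hq4]; positivity
  have hq4e : e = q4 * (1 - lam) ^ 2 / 4 := by
    rw [hq4]; field_simp
  refine ⟨k + 2, s0, k + 2, A, hs0, hA0, by omega, ?_⟩
  intro V C _ _ _ _ G D c0 s Δ hs hΔ hGD hdeg
  have hs2 : 2 ≤ s := hs0.trans hs
  have hsR : (0 : ℝ) < s := by exact_mod_cast (by omega : 0 < s)
  set E := 4 * (2 / ε * (((k : ℝ) + 1) * lam ^ k + q4) + e) with hE
  have hE0 : 0 ≤ E := by rw [hE]; positivity
  have h4' := h4 s hs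
  obtain ⟨h5a, h5b⟩ := h5 s hs
  -- main induction
  intro N
  induction N with
  | zero => exact fun j => IBD_zero G D c0 s j _ (by positivity)
  | succ N ih =>
    have hIB0 : IBD G D c0 s N 0 A := by
      have := ih 0
      simpa using this
    have hBRi : ∀ i, i ≤ k → BRN G D c0 s N i δ := by
      intro i hi
      have hi' : (i : ℝ) ≤ k := by exact_mod_cast hi
      refine BRN_mono (hBR V C G D c0 s Δ N i (k + 2) B ε A (by omega) hε hA0 hGD (by omega)
        hdeg hΔ (le_trans (Nat.mul_le_mul_left B (by omega)) h5a) hIB0) (le_trans ?_ h5b)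
      have e1 : (2 + 1 / ε) ^ (i + 1) ≤ (2 + 1 / ε) ^ (k + 1) :=
        pow_le_pow_right₀ (by have : 0 < 1 / ε := by positivity
                              linarith) (by omega)
      have e2 : (0:ℝ) ≤ (2 + 1 / ε) ^ (i + 1) := by positivity
      gcongr
    have hlev : ∀ i, i ≤ k → LVD G D c0 s (N + 1) i (lam ^ i + e / (1 - lam))
        (((i : ℝ) + 1) * lam ^ i + q4) M := by
      intro i
      induction i with
      | zero =>
        intro _
        refine LVD_mono (h0 V C G D c0 s (N + 1) hs2 hGD.zero) le_rfl zero_le_one ?_ zero_le_one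
          ?_ ?_
        · have : 0 ≤ e / (1 - lam) := by positivity
          simpa using this
        · simpa using hq40
        · have : 0 ≤ 2 / ε * (1 / (1 - lam) + 1) := by positivity
          linarith
      | succ i ihi =>
        intro hi
        have hb : 0 ≤ lam ^ i + e / (1 - lam) := by positivity
        have hr : 0 ≤ ((i : ℝ) + 1) * lam ^ i + q4 := by positivity
        have := hLV V C G D c0 s Δ N i ε δ _ _ M lam hs2
          hδ.le hε hb hr hM hlam0.le hGD.zero hdeg hΔ (hBRi i (by omega)) (ihi (by omega))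
          (h1 s hs)
        rw [← he] at this
        have hee : e / (1 - lam) = q4 * (1 - lam) / 4 := by
          rw [hq4e]; field_simp
        have hlami : 0 ≤ lam ^ i := by positivity
        have hlami1 : lam ^ i ≤ 1 := pow_le_one₀ hlam0.le hlam1.le
        refine LVD_mono this (by omega) (by positivity) ?_ (by positivity) ?_ ?_
        · rw [pow_succ, hee, hq4e]
          nlinarith
        · rw [pow_succ, hee, hq4e]
          push_cast
          nlinarith [mul_nonneg hq40 (by linarith : (0:ℝ) ≤ 1 - lam),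
            mul_nonneg hq40 (mul_nonneg hlam0.le (by linarith : (0:ℝ) ≤ 1 - lam)),
            mul_nonneg hq40 (mul_nonneg (by linarith : (0:ℝ) ≤ 1 - lam)
              (by linarith : (0:ℝ) ≤ 1 - lam))]
        · have hp := pow_bound lam hlam0 hlam1 i
          have h5 : 2 / ε * (((i : ℝ) + 1) * lam ^ i + q4) ≤
              2 / ε * (1 / (1 - lam) + 1) :=
            mul_le_mul_of_nonneg_left (by linarith) (by positivity)
          have h6 : e ≤ 1 := by
            rw [hq4e]
            have : (1 - lam) ^ 2 ≤ 1 := by nlinarith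
            nlinarith [mul_le_mul h2 this (by positivity) (by norm_num)]
          have h7 : e / (1 - lam) ≤ 1 := by
            rw [hee]
            nlinarith
          have h8 : lam * (lam ^ i + e / (1 - lam)) ≤ 1 * (1 + 1) :=
            mul_le_mul hlam1.le (by linarith) hb (by norm_num)
          linarith
    have hLk := hlev k le_rfl
    -- the influence on level k+1
    have hEh : ∀ (R : Finset V) (L : V → Finset C) (v : V) (b c : C) (W : Finset V),
        R.card ≤ N + 1 → v ∉ R → Sl G s R L → SlP G s R (nb G R v) L → W ⊆ R →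
        (∀ w ∈ W, D v w = k + 1) →
        ∑ w ∈ W, ∑ a, |pr G c0 R (era L (nb G R v) b) w a -
          pr G c0 R (era L (nb G R v) c) w a| ≤ E := by
      intro R L v b c W a1 a2 a3 a4 a5 a6
      have := hLI V C G D c0 s Δ N k ε δ _ _ M hs2
          hδ.le hε (by positivity)
          (by positivity) hM hdeg hΔ (hBRi k le_rfl) hLk R L v b c W a1 a2 a3 a4
          a5 a6
      rw [← he] at this
      exact this
    set r0 := ⌈θ * (Δ : ℝ) ^ (k + 1)⌉₊ with hr0
    have hrev := fun (j : ℕ) (A' om : ℝ) (hA' : 0 ≤ A') (hIB : IBD G D c0 s N j A') =>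
      hR V C G D c0 s Δ N k j B (k + 2) r0 ε A' om E hs2 hk hε hA' hE0 hGD le_rfl hdeg hΔ
        hIB hEh
    set S2 := (2 / (s : ℝ)) * ((B : ℝ) * ((k : ℝ) + 1)) *
      (∑ i ∈ Finset.range (k + 1), (2 / ε) ^ i) with hS2
    have hS20 : 0 ≤ S2 := mul_nonneg (mul_nonneg (div_nonneg zero_le_two hsR.le)
      (mul_nonneg (Nat.cast_nonneg _) (by positivity)))
      (Finset.sum_nonneg fun i _ => pow_nonneg (div_nonneg zero_le_two hε.le) i)
    set BK := ((B : ℝ) * ((k : ℝ) + 1)) ^ (k + 1) with hBK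
    have hBK0 : 0 ≤ BK := pow_nonneg (mul_nonneg (Nat.cast_nonneg _) (by positivity)) _
    -- the total weight
    have hw : ∀ n : ℕ, n ≤ Δ ^ (k + 1) → S2 + BK * ((2 / (s : ℝ)) ^ (k + 1) * (r0 : ℝ)) +
        E * (Hs (max n r0) - Hs r0) ≤ 1 / 4 := by
      intro n hn
      have a1 : E * (Hs (max n r0) - Hs r0) ≤ E * Real.log (1 / θ) :=
        mul_le_mul_of_nonneg_left (hH Δ (k + 1) n r0 θ hθ0 hθ1 hn hr0) hE0
      have a2 : (r0 : ℝ) ≤ θ * (Δ : ℝ) ^ (k + 1) + 1 := (Nat.ceil_lt_add_one (by positivity)).le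
      have a3 : (2 / (s : ℝ)) * (Δ : ℝ) ≤ 2 / ε := by
        rw [div_mul_eq_mul_div, div_le_div_iff₀ hsR hε]
        nlinarith
      have a4 : (2 / (s : ℝ)) ^ (k + 1) * (Δ : ℝ) ^ (k + 1) ≤ (2 / ε) ^ (k + 1) := by
        rw [← mul_pow]
        exact pow_le_pow_left₀ (by positivity) a3 _
      have a5 : (2 / (s : ℝ)) ^ (k + 1) * (r0 : ℝ) ≤
          (2 / ε) ^ (k + 1) * θ + (2 / (s : ℝ)) ^ (k + 1) := by
        have b1 : (2 / (s : ℝ)) ^ (k + 1) * (r0 : ℝ) ≤
            (2 / (s : ℝ)) ^ (k + 1) * (θ * (Δ : ℝ) ^ (k + 1) + 1) :=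
          mul_le_mul_of_nonneg_left a2 (by positivity)
        have b2 := mul_le_mul_of_nonneg_right a4 hθ0.le
        linarith
      have a6 := mul_le_mul_of_nonneg_left a5 hBK0
      linarith
    have hlyc : ∀ (R : Finset V) (v : V), v ∉ R → (lyD G D R v (k + 1)).card ≤ Δ ^ (k + 1) :=
      fun R v hv => (hLY V G D Δ B (k + 2) hGD hdeg R v hv).1 (k + 1)
    intro j
    rcases Nat.lt_or_ge j (k + 2) with hj | hj
    · -- near
      have hj0 : j / (k + 2) = 0 := Nat.div_eq_of_lt hj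
      rw [hj0, pow_zero, div_one]
      intro R L v b c F W a1 a2 a3 a4 a5 a6 a7
      have := hrev 0 A 1 hA0 hIB0 R L v b c F W a1 a2 a3 a4 a5 a6 (Or.inl ⟨rfl, rfl⟩)
      refine this.trans ?_
      have hw' := hw _ (hlyc R v a2)
      have hp : 0 ≤ BK * ((2 / (s : ℝ)) ^ (k + 1) * (r0 : ℝ)) := by positivity
      set w1 := BK * ((2 / (s : ℝ)) ^ (k + 1) * (r0 : ℝ))
      set w2 := E * (Hs (max (lyD G D R v (k + 1)).card r0) - Hs r0)
      have e1 : (1 + A) * (S2 + w1 + w2) ≤ (1 + A) * (1 / 4) :=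
        mul_le_mul_of_nonneg_left hw' (by linarith)
      nlinarith
    · -- far
      obtain ⟨j', rfl⟩ : ∃ j', j = j' + (k + 1) := ⟨j - (k + 1), by omega⟩
      have hj' : 1 ≤ j' := by omega
      intro R L v b c F W a1 a2 a3 a4 a5 a6 a7
      set A' := A / 2 ^ (j' / (k + 2)) with hA'
      have hA'0 : 0 ≤ A' := by rw [hA']; positivity
      have := hrev j' A' 0 hA'0 (ih j') R L v b c F W a1 a2 a3 a4 a5 a6
        (Or.inr ⟨rfl, hj', a7⟩)
      refine this.trans ?_
      have hw' := hw _ (hlyc R v a2)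
      set w1 := BK * ((2 / (s : ℝ)) ^ (k + 1) * (r0 : ℝ))
      set w2 := E * (Hs (max (lyD G D R v (k + 1)).card r0) - Hs r0)
      have e1 : A' * (S2 + w1 + w2) ≤ A' * (1 / 4) := mul_le_mul_of_nonneg_left hw' hA'0
      have e2 : (j' + (k + 1)) / (k + 2) ≤ j' / (k + 2) + 1 := by
        have := Nat.div_le_div_right (c := k + 2) (by omega : j' + (k + 1) ≤ j' + (k + 2))
        rwa [Nat.add_div_right _ (by omega : 0 < k + 2)] at this
      have e3 : A' / 2 ≤ A / 2 ^ ((j' + (k + 1)) / (k + 2)) := by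
        rw [hA', div_div, ← pow_succ]
        exact div_le_div_of_nonneg_left hA0 (by positivity)
          (pow_le_pow_right₀ (by norm_num) e2)
      nlinarith

end Pool.Agent.Y992.HL
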