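import Pool.Agent.Y992.HL.Stm
import Pool.Agent.H983R2.GC.WLemma
import Pool.Agent.H983R2.GC.Removal

set_option autoImplicit false
set_option linter.unusedSectionVars false

/-! Project HL: near independence by heat-bath sweeps. -/

namespace Pool.Agent.Y992.HL

open Finset Pool.Agent.H983R2.GC Pool.Agent.W341.UG

/-- Average over a finite set of colours. -/
noncomputable def av {C : Type} (Z : Finset C) (f : C → ℝ) : ℝ := (∑ a ∈ Z, f a) / (Z.card : ℝ)

theorem av_close {C : Type} (Z : Finset C) (f g : C → ℝ) (e : ℝ) (he : 0 ≤ e)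
    (h : ∀ a ∈ Z, |f a - g a| ≤ e) : |av Z f - av Z g| ≤ e := by
  unfold av
  rcases Z.eq_empty_or_nonempty with h0 | h0
  · subst h0; simpa using he
  · have hpos : (0 : ℝ) < (Z.card : ℝ) := by exact_mod_cast Finset.card_pos.2 h0
    rw [← sub_div, ← Finset.sum_sub_distrib, abs_div, abs_of_pos hpos, div_le_iff₀ hpos]
    refine (Finset.abs_sum_le_sum_abs _ _).trans ((Finset.sum_le_sum h).trans ?_)
    rw [Finset.sum_const, nsmul_eq_mul, mul_comm]

theorem av_erase {C : Type} [DecidableEq C] (Z : Finset C) (f : C → ℝ) (o : ℝ) (s : ℕ) (b c : C)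
    (hf : ∀ a a', |f a - f a'| ≤ o) (hs : 1 ≤ s) (hb : s ≤ (Z.erase b).card)
    (hc : s ≤ (Z.erase c).card) : |av (Z.erase b) f - av (Z.erase c) f| ≤ o / s := by
  have ho : 0 ≤ o := (abs_nonneg _).trans (hf b b)
  have hsR : (0 : ℝ) < s := by exact_mod_cast hs
  have key : ∀ (x : C), x ∈ Z → s ≤ (Z.erase x).card → |av (Z.erase x) f - av Z f| ≤ o / s := by
    intro x hx hcx
    rw [Finset.card_erase_of_mem hx] at hcx
    have hn1 : 2 ≤ Z.card := by omega
    have hnR : (s : ℝ) ≤ (Z.card : ℝ) - 1 := by
      have : ((Z.card - 1 : ℕ) : ℝ) = (Z.card : ℝ) - 1 := by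
        rw [Nat.cast_sub (by omega)]; simp
      rw [← this]; exact_mod_cast hcx
    have hZ : (0 : ℝ) < (Z.card : ℝ) := by linarith
    have hZ1 : (0 : ℝ) < (Z.card : ℝ) - 1 := by linarith
    have e1 : av (Z.erase x) f = ((∑ a ∈ Z, f a) - f x) / ((Z.card : ℝ) - 1) := by
      unfold av
      rw [Finset.card_erase_of_mem hx, Nat.cast_sub (by omega), Finset.sum_erase_eq_sub hx]
      simp
    have e2 : av (Z.erase x) f - av Z f = (∑ a ∈ Z, (f a - f x)) /
        ((Z.card : ℝ) * ((Z.card : ℝ) - 1)) := by
      rw [e1, Finset.sum_sub_distrib, Finset.sum_const, nsmul_eq_mul]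
      unfold av
      field_simp
      ring
    rw [e2, abs_div, abs_of_pos (mul_pos hZ hZ1), div_le_iff₀ (mul_pos hZ hZ1)]
    have e3 : |∑ a ∈ Z, (f a - f x)| ≤ (Z.card : ℝ) * o := by
      refine (Finset.abs_sum_le_sum_abs _ _).trans ((Finset.sum_le_sum fun a _ => hf a x).trans ?_)
      rw [Finset.sum_const, nsmul_eq_mul]
    refine e3.trans ?_
    have e4 : o / s * ((Z.card : ℝ) * ((Z.card : ℝ) - 1)) =
        (Z.card : ℝ) * o * (((Z.card : ℝ) - 1) / s) := by ring
    rw [e4]
    have e5 : 1 ≤ ((Z.card : ℝ) - 1) / s := by rwa [le_div_iff₀ hsR, one_mul]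
    exact le_mul_of_one_le_right (by positivity) e5
  by_cases h1 : b ∈ Z
  · by_cases h2 : c ∈ Z
    · rw [Finset.card_erase_of_mem h1] at hb
      have hn1 : 2 ≤ Z.card := by omega
      have hnR : (s : ℝ) ≤ (Z.card : ℝ) - 1 := by
        have : ((Z.card - 1 : ℕ) : ℝ) = (Z.card : ℝ) - 1 := by
          rw [Nat.cast_sub (by omega)]; simp
        rw [← this]; exact_mod_cast hb
      unfold av
      rw [Finset.card_erase_of_mem h1, Finset.card_erase_of_mem h2,
        Nat.cast_sub (by omega), Finset.sum_erase_eq_sub h1,
        Finset.sum_erase_eq_sub h2, ← sub_div]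
      have hZ1 : (0 : ℝ) < (Z.card : ℝ) - ((1 : ℕ) : ℝ) := by push_cast; linarith
      have e1 : (∑ a ∈ Z, f a) - f b - ((∑ a ∈ Z, f a) - f c) = f c - f b := by ring
      rw [e1, abs_div, abs_of_pos hZ1]
      refine div_le_div₀ ho (hf c b) hsR ?_
      push_cast; exact hnR
    · rw [Finset.erase_eq_of_notMem h2]
      exact key b h1 hb
  · rw [Finset.erase_eq_of_notMem h1]
    by_cases h2 : c ∈ Z
    · rw [abs_sub_comm]
      exact key c h2 hc
    · rw [Finset.erase_eq_of_notMem h2, sub_self, abs_zero]
      positivity

section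

variable {V C : Type} [Fintype V] [DecidableEq V] [Fintype C] [DecidableEq C]

/-- The heat-bath operator at `w`. -/
noncomputable def HB (G : SimpleGraph V) (R : Finset V) (L : V → Finset C) (w : V)
    (F : (V → C) → ℝ) (σ : V → C) : ℝ :=
  av (W_A G R L w σ) (fun a => F (Function.update σ w a))

/-- Weighted Lipschitz functions. -/
def WL (R : Finset V) (l : V → ℝ) (F : (V → C) → ℝ) : Prop :=
  ∀ x σ a, |F (Function.update σ x a) - F σ| ≤ if x ∈ R then l x else 0

theorem EE_HB (G : SimpleGraph V) (c0 : C) (R : Finset V) (L : V → Finset C) (w : V)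
    (hw : w ∈ R) (F : (V → C) → ℝ) : EE G c0 R L F = EE G c0 R L (HB G R L w F) := by
  unfold EE
  rw [W_one G c0 R L w hw F]
  rfl

theorem W_A_split (G : SimpleGraph V) (R : Finset V) (L : V → Finset C) (w x : V)
    (hx : x ∈ nb G R w) (σ : V → C) :
    W_A G R L w σ = ((L w).filter (fun d => ∀ y ∈ (nb G R w).erase x, σ y ≠ d)).erase (σ x) := by
  ext d
  unfold W_A
  rw [Finset.mem_erase, Finset.mem_filter, Finset.mem_filter]
  constructor
  · rintro ⟨h1, h2⟩
    exact ⟨(h2 x hx).symm, h1, fun y hy => h2 y (Finset.mem_of_mem_erase hy)⟩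
  · rintro ⟨h1, h2, h3⟩
    refine ⟨h2, fun y hy => ?_⟩
    by_cases h : y = x
    · subst h; exact h1.symm
    · exact h3 y (Finset.mem_erase.2 ⟨h, hy⟩)

/-- New weights after an update at `w`. -/
noncomputable def stp (G : SimpleGraph V) (s : ℕ) (l : V → ℝ) (w x : V) : ℝ := by
  classical
  exact if x = w then 0 else l x + (if G.Adj w x then l w / s else 0)

theorem WL_osc {R : Finset V} {l : V → ℝ} {F : (V → C) → ℝ} (hF : WL R l F) {w : V}
    (hw : w ∈ R) (σ : V → C) (a a' : C) :
    |F (Function.update σ w a) - F (Function.update σ w a')| ≤ l w := by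
  have h := hF w (Function.update σ w a') a
  rw [Function.update_idem, if_pos hw] at h
  exact h

theorem WL_HB (G : SimpleGraph V) (s : ℕ) (R : Finset V) (L : V → Finset C) (w : V)
    (hw : w ∈ R) (hs : 1 ≤ s) (hW : ∀ σ, s ≤ (W_A G R L w σ).card) (l : V → ℝ)
    (hl : ∀ x, 0 ≤ l x) (F : (V → C) → ℝ) (hF : WL R l F) :
    WL R (stp G s l w) (HB G R L w F) := by
  classical
  intro x σ a
  by_cases hxw : x = w
  · subst hxw
    have h1 : HB G R L x F (Function.update σ x a) = HB G R L x F σ := by
      unfold HB
      rw [W_A_update G R L x x (self_not_mem_nb G R x)]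
      congr 1
      funext b
      rw [Function.update_idem]
    rw [h1, sub_self, abs_zero, if_pos hw]
    simp [stp]
  · have hcomm : ∀ b, Function.update (Function.update σ x a) w b =
        Function.update (Function.update σ w b) x a := fun b =>
      Function.update_comm hxw a b σ
    by_cases hxn : x ∈ nb G R w
    · have hxR : x ∈ R := nb_subset G R w hxn
      have hadj : G.Adj w x := ((mem_nb G R w x).1 hxn).2
      rw [if_pos hxR]
      simp only [stp, if_neg hxw, if_pos hadj]
      unfold HB
      have e1 : |av (W_A G R L w (Function.update σ x a))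
          (fun b => F (Function.update (Function.update σ x a) w b)) -
          av (W_A G R L w (Function.update σ x a)) (fun b => F (Function.update σ w b))| ≤ l x := by
        refine av_close _ _ _ _ (hl x) fun b _ => ?_
        rw [hcomm b]
        have := hF x (Function.update σ w b) a
        rwa [if_pos hxR] at this
      have e2 : |av (W_A G R L w (Function.update σ x a)) (fun b => F (Function.update σ w b)) -
          av (W_A G R L w σ) (fun b => F (Function.update σ w b))| ≤ l w / s := by
        have hA := W_A_split G R L w x hxn (Function.update σ x a)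
        have hA' := W_A_split G R L w x hxn σ
        have hZ : ((L w).filter (fun d => ∀ y ∈ (nb G R w).erase x,
            Function.update σ x a y ≠ d)) =
            ((L w).filter (fun d => ∀ y ∈ (nb G R w).erase x, σ y ≠ d)) := by
          refine Finset.filter_congr fun d _ => ?_
          refine forall₂_congr fun y hy => ?_
          rw [Function.update_of_ne (Finset.ne_of_mem_erase hy)]
        rw [hZ] at hA
        have c1 := hW (Function.update σ x a)
        have c2 := hW σ
        rw [hA] at c1 ⊢
        rw [hA'] at c2 ⊢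
        exact av_erase _ _ _ _ _ _ (fun b b' => WL_osc hF hw σ b b') hs c1 c2
      exact (abs_sub_le _ _ _).trans (add_le_add e1 e2)
    · unfold HB
      rw [W_A_update G R L w x hxn]
      have hb : ∀ b, |F (Function.update (Function.update σ x a) w b) -
          F (Function.update σ w b)| ≤ if x ∈ R then l x else 0 := by
        intro b
        rw [hcomm b]
        exact hF x (Function.update σ w b) a
      refine (av_close _ _ _ _ ?_ fun b _ => hb b).trans ?_
      · split_ifs
        · exact hl x
        · exact le_rfl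
      · split_ifs with h
        · simp only [stp, if_neg hxw]
          have : 0 ≤ (if G.Adj w x then l w / (s : ℝ) else 0) := by
            split_ifs
            · exact div_nonneg (hl w) (by positivity)
            · exact le_rfl
          linarith
        · exact le_rfl

theorem W_A_era (G : SimpleGraph V) (R H : Finset V) (L : V → Finset C) (w : V) (b : C)
    (σ : V → C) : W_A G R (era L H b) w σ =
      if w ∈ H then (W_A G R L w σ).erase b else W_A G R L w σ := by
  unfold W_A era
  split_ifs with h
  · ext d
    simp only [Finset.mem_filter, Finset.mem_erase]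
    tauto
  · rfl

theorem EE_close (G : SimpleGraph V) (c0 : C) (R : Finset V) (L : V → Finset C)
    (F F' : (V → C) → ℝ) (e : ℝ) (he : 0 ≤ e) (h : ∀ σ, |F σ - F' σ| ≤ e) :
    |EE G c0 R L F - EE G c0 R L F'| ≤ e := by
  unfold EE
  rcases (Col G c0 R L).eq_empty_or_nonempty with h0 | h0
  · rw [h0]; simpa using he
  · have hpos : (0 : ℝ) < ((Col G c0 R L).card : ℝ) := by exact_mod_cast Finset.card_pos.2 h0
    rw [← sub_div, ← Finset.sum_sub_distrib, abs_div, abs_of_pos hpos, div_le_iff₀ hpos]
    refine (Finset.abs_sum_le_sum_abs _ _).trans ((Finset.sum_le_sum fun σ _ => h σ).trans ?_)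
    rw [Finset.sum_const, nsmul_eq_mul, mul_comm]

/-- One heat-bath step in the difference of two averages. -/
theorem dif_step (G : SimpleGraph V) (c0 : C) (s : ℕ) (R : Finset V) (L : V → Finset C) (h : V)
    (b c : C) (hs : 1 ≤ s) (hh : h ∉ R)
    (hLb : Sl G s R (era L (nb G R h) b)) (hLc : Sl G s R (era L (nb G R h) c)) (w : V)
    (hw : w ∈ R) (l : V → ℝ) (hl : ∀ x, 0 ≤ l x) (F : (V → C) → ℝ) (hF : WL R l F) (Q : ℝ)
    (hQ : Q ≤ |EE G c0 R (era L (nb G R h) b) F - EE G c0 R (era L (nb G R h) c) F| + l h) :
    Q ≤ |EE G c0 R (era L (nb G R h) b) (HB G R (era L (nb G R h) b) w F) -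
      EE G c0 R (era L (nb G R h) c) (HB G R (era L (nb G R h) b) w F)| + stp G s l w h := by
  classical
  have hwh : h ≠ w := fun e => hh (e ▸ hw)
  have hslA : ∀ (L' : V → Finset C), Sl G s R L' → ∀ σ, s ≤ (W_A G R L' w σ).card := by
    intro L' hL' σ
    have h1 : L' w \ (nb G R w).image σ ⊆ W_A G R L' w σ := by
      intro d hd
      rw [Finset.mem_sdiff] at hd
      unfold W_A
      rw [Finset.mem_filter]
      refine ⟨hd.1, fun y hy h => hd.2 ?_⟩
      exact Finset.mem_image.mpr ⟨y, hy, h⟩
    have h2 := Finset.card_le_card h1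
    have h3 := Finset.le_card_sdiff ((nb G R w).image σ) (L' w)
    have h4 : ((nb G R w).image σ).card ≤ (nb G R w).card := Finset.card_image_le
    have h5 := hL' w hw
    omega
  have e1 : |EE G c0 R (era L (nb G R h) c) (HB G R (era L (nb G R h) b) w F) -
      EE G c0 R (era L (nb G R h) c) (HB G R (era L (nb G R h) c) w F)| ≤
      if G.Adj w h then l w / s else 0 := by
    refine EE_close G c0 R _ _ _ _ ?_ fun σ => ?_
    · split_ifs
      · exact div_nonneg (hl w) (by positivity)
      · exact le_rfl
    · unfold HB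
      have c1 := hslA _ hLb σ
      have c2 := hslA _ hLc σ
      rw [W_A_era] at c1 c2 ⊢
      rw [W_A_era]
      by_cases hwn : w ∈ nb G R h
      · have hadj : G.Adj w h := (((mem_nb G R h w).1 hwn).2).symm
        rw [if_pos hwn] at c1 c2 ⊢
        rw [if_pos hwn, if_pos hadj]
        exact av_erase _ _ _ _ _ _ (fun b b' => WL_osc hF hw σ b b') hs c1 c2
      · rw [if_neg hwn, if_neg hwn, sub_self, abs_zero]
        split_ifs
        · exact div_nonneg (hl w) (by positivity)
        · exact le_rfl
  have e2 := EE_HB G c0 R (era L (nb G R h) b) w hw F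
  have e3 := EE_HB G c0 R (era L (nb G R h) c) w hw F
  have e4 : stp G s l w h = l h + (if G.Adj w h then l w / (s : ℝ) else 0) := by
    simp only [stp, if_neg hwh]
  rw [e4]
  rw [e2, e3] at hQ
  have e5 := abs_sub_le (EE G c0 R (era L (nb G R h) b) (HB G R (era L (nb G R h) b) w F))
    (EE G c0 R (era L (nb G R h) c) (HB G R (era L (nb G R h) b) w F))
    (EE G c0 R (era L (nb G R h) c) (HB G R (era L (nb G R h) c) w F))
  linarith

theorem stp_nonneg (G : SimpleGraph V) (s : ℕ) (l : V → ℝ) (hl : ∀ x, 0 ≤ l x) (w x : V) :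
    0 ≤ stp G s l w x := by
  classical
  simp only [stp]
  split_ifs
  · exact le_rfl
  · exact add_nonneg (hl x) (div_nonneg (hl w) (by positivity))
  · rw [add_zero]; exact hl x

/-- A sweep over an independent set. -/
theorem sweep (G : SimpleGraph V) (c0 : C) (s : ℕ) (R : Finset V) (L : V → Finset C) (h : V)
    (b c : C) (hs : 1 ≤ s) (hh : h ∉ R)
    (hLb : Sl G s R (era L (nb G R h) b)) (hLc : Sl G s R (era L (nb G R h) c))
    (l : V → ℝ) (hl : ∀ x, 0 ≤ l x) (F : (V → C) → ℝ) (hF : WL R l F) (Q M : ℝ) (hM : 0 ≤ M)
    (hQ : Q ≤ |EE G c0 R (era L (nb G R h) b) F - EE G c0 R (era L (nb G R h) c) F| + l h)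
    (U : Finset V) (hUR : U ⊆ R) (hUi : ∀ x ∈ U, ∀ y ∈ U, ¬ G.Adj x y)
    (hUM : ∀ x ∈ U, l x ≤ M) (T : Finset V) (hT : T ⊆ U) :
    ∃ (l' : V → ℝ) (F' : (V → C) → ℝ), (∀ x, 0 ≤ l' x) ∧ WL R l' F' ∧
      Q ≤ |EE G c0 R (era L (nb G R h) b) F' - EE G c0 R (era L (nb G R h) c) F'| + l' h ∧
      (∀ x ∈ T, l' x = 0) ∧ (∀ x, x ∉ T → l' x ≤ l x + ((nb G T x).card : ℝ) * (M / s)) := by
  classical
  induction T using Finset.induction_on with
  | empty =>
    exact ⟨l, F, hl, hF, hQ, fun x hx => absurd hx (Finset.notMem_empty x), fun x _ => by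
      have : (0:ℝ) ≤ ((nb G ∅ x).card : ℝ) * (M / s) := by positivity
      linarith⟩
  | insert w T hwT ih =>
    obtain ⟨l', F', h1, h2, h3, h4, h5⟩ := ih (fun x hx => hT (Finset.mem_insert_of_mem hx))
    have hwU : w ∈ U := hT (Finset.mem_insert_self w T)
    have hwR : w ∈ R := hUR hwU
    have hslA : ∀ σ, s ≤ (W_A G R (era L (nb G R h) b) w σ).card := by
      intro σ
      have h1 : (era L (nb G R h) b) w \ (nb G R w).image σ ⊆
          W_A G R (era L (nb G R h) b) w σ := by
        intro d hd
        rw [Finset.mem_sdiff] at hd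
        unfold W_A
        rw [Finset.mem_filter]
        refine ⟨hd.1, fun y hy h => hd.2 ?_⟩
        exact Finset.mem_image.mpr ⟨y, hy, h⟩
      have h2 := Finset.card_le_card h1
      have h3 := Finset.le_card_sdiff ((nb G R w).image σ) ((era L (nb G R h) b) w)
      have h4 : ((nb G R w).image σ).card ≤ (nb G R w).card := Finset.card_image_le
      have h5 := hLb w hwR
      omega
    have hw' : l' w ≤ M := by
      have := h5 w hwT
      have h6 : nb G T w = ∅ := by
        rw [Finset.eq_empty_iff_forall_notMem]
        intro y hy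
        rw [mem_nb] at hy
        exact hUi w hwU y (hT (Finset.mem_insert_of_mem hy.1)) hy.2
      rw [h6] at this
      simp at this
      exact this.trans (hUM w hwU)
    refine ⟨stp G s l' w, HB G R (era L (nb G R h) b) w F', stp_nonneg G s l' h1 w,
      WL_HB G s R _ w hwR hs hslA l' h1 F' h2,
      dif_step G c0 s R L h b c hs hh hLb hLc w hwR l' h1 F' h2 Q h3, ?_, ?_⟩
    · intro x hx
      by_cases hxw : x = w
      · simp only [stp, if_pos hxw]
      · have hxT : x ∈ T := (Finset.mem_insert.1 hx).resolve_left hxw
        have hadj : ¬ G.Adj w x := hUi w hwU x (hT hx)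
        simp only [stp, if_neg hxw, if_neg hadj, add_zero]
        exact h4 x hxT
    · intro x hx
      have hxw : x ≠ w := fun e => hx (e ▸ Finset.mem_insert_self w T)
      have hxT : x ∉ T := fun e => hx (Finset.mem_insert_of_mem e)
      have h7 := h5 x hxT
      simp only [stp, if_neg hxw]
      by_cases hadj : G.Adj w x
      · rw [if_pos hadj]
        have h8 : (nb G (insert w T) x).card = (nb G T x).card + 1 := by
          have : nb G (insert w T) x = insert w (nb G T x) := by
            ext y
            simp only [mem_nb, Finset.mem_insert]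
            constructor
            · rintro ⟨h | h, h'⟩
              · exact Or.inl h
              · exact Or.inr ⟨h, h'⟩
            · rintro (h | ⟨h, h'⟩)
              · subst h; exact ⟨Or.inl rfl, hadj.symm⟩
              · exact ⟨Or.inr h, h'⟩
          rw [this, Finset.card_insert_of_notMem]
          intro hy
          exact hwT ((mem_nb G T x w).1 hy).1
        rw [h8]
        push_cast
        have h9 : l' w / (s : ℝ) ≤ M / s := by
          gcongr
        nlinarith
      · rw [if_neg hadj, add_zero]
        refine h7.trans ?_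
        have h8 : (nb G T x).card ≤ (nb G (insert w T) x).card := by
          refine Finset.card_le_card fun y hy => ?_
          rw [mem_nb] at hy ⊢
          exact ⟨Finset.mem_insert_of_mem hy.1, hy.2⟩
        have h9 : ((nb G T x).card : ℝ) ≤ ((nb G (insert w T) x).card : ℝ) := by exact_mod_cast h8
        have h10 : 0 ≤ M / (s : ℝ) := by positivity
        nlinarith

theorem WL_lip {R : Finset V} {l : V → ℝ} {F : (V → C) → ℝ} (hF : WL R l F) (a : ℝ)
    (hl : ∀ x ∈ R, l x ≤ a) (ha : 0 ≤ a) (σ τ : V → C) :
    |F σ - F τ| ≤ a * ((R.filter (fun w => σ w ≠ τ w)).card : ℝ) := by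
  classical
  -- change the coordinates one by one
  have key : ∀ T : Finset V, |F (fun x => if x ∈ T then σ x else τ x) - F τ| ≤
      a * (((R ∩ T).filter (fun w => σ w ≠ τ w)).card : ℝ) := by
    intro T
    induction T using Finset.induction_on with
    | empty =>
      simp
    | insert w T hwT ih =>
      have e1 : (fun x => if x ∈ insert w T then σ x else τ x) =
          Function.update (fun x => if x ∈ T then σ x else τ x) w (σ w) := by
        funext x
        by_cases hx : x = w
        · subst hx; simp
        · rw [Function.update_of_ne hx]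
          simp [hx]
      rw [e1]
      by_cases hst : σ w = τ w
      · have e2 : Function.update (fun x => if x ∈ T then σ x else τ x) w (σ w) =
            (fun x => if x ∈ T then σ x else τ x) := by
          rw [Function.update_eq_self_iff]
          simp [hwT, hst]
        rw [e2]
        refine ih.trans ?_
        gcongr
        exact Finset.subset_insert w T
      · by_cases hwR : w ∈ R
        · have h1 := hF w (fun x => if x ∈ T then σ x else τ x) (σ w)
          rw [if_pos hwR] at h1
          have h2 : ((R ∩ insert w T).filter (fun w => σ w ≠ τ w)).card =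
              ((R ∩ T).filter (fun w => σ w ≠ τ w)).card + 1 := by
            have : (R ∩ insert w T).filter (fun w => σ w ≠ τ w) =
                insert w ((R ∩ T).filter (fun w => σ w ≠ τ w)) := by
              ext y
              simp only [Finset.mem_filter, Finset.mem_inter, Finset.mem_insert]
              constructor
              · rintro ⟨⟨h, h' | h'⟩, h''⟩
                · exact Or.inl h'
                · exact Or.inr ⟨⟨h, h'⟩, h''⟩
              · rintro (h | ⟨⟨h, h'⟩, h''⟩)
                · subst h; exact ⟨⟨hwR, Or.inl rfl⟩, hst⟩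
                · exact ⟨⟨h, Or.inr h'⟩, h''⟩
            rw [this, Finset.card_insert_of_notMem]
            simp [hwT]
          rw [h2]
          push_cast
          have h3 := abs_sub_le (F (Function.update (fun x => if x ∈ T then σ x else τ x) w (σ w)))
            (F (fun x => if x ∈ T then σ x else τ x)) (F τ)
          have h4 := hl w hwR
          linarith
        · have h1 := hF w (fun x => if x ∈ T then σ x else τ x) (σ w)
          rw [if_neg hwR] at h1
          have h2 : F (Function.update (fun x => if x ∈ T then σ x else τ x) w (σ w)) =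
              F (fun x => if x ∈ T then σ x else τ x) := sub_eq_zero.1 (abs_nonpos_iff.1 h1)
          rw [h2]
          refine ih.trans ?_
          gcongr
          exact Finset.subset_insert w T
  have h := key Finset.univ
  simpa using h

theorem t_NI : S_NI := by
  classical
  intro V C _ _ _ _ G c0 s m R L h b c U W t β X A hs hh hSl hSlP hU0 hUR hUi hUβ hX hβ0 hβ1 hX0
    hA hW ht hIB
  have hsR : (0 : ℝ) < s := by exact_mod_cast hs
  have hLb : ∀ d, Sl G s R (era L (nb G R h) d) := fun d => Sl_era G s R _ L d hSl hSlP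
  set Q : ℝ := |EE G c0 R (era L (nb G R h) b) (adf W t) -
    EE G c0 R (era L (nb G R h) c) (adf W t)| with hQ
  set a : ℕ → ℝ := fun n => β * ∑ j ∈ Finset.range n, (2 + X) ^ j with ha
  have ha0 : ∀ n, 0 ≤ a n := fun n => mul_nonneg hβ0 (Finset.sum_nonneg fun j _ => by positivity)
  have ha1 : ∀ n, a (n + 1) = a n + β * (2 + X) ^ n := fun n => by
    simp only [ha]
    rw [Finset.sum_range_succ, mul_add]
  have haM : ∀ n, a n ≤ (2 + X) ^ n := by
    intro n
    induction n with
    | zero => simp [ha]
    | succ n ih =>
      rw [ha1]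
      have h1 : 0 ≤ (2 + X) ^ n := by positivity
      have h2 : β * (2 + X) ^ n ≤ 1 * (2 + X) ^ n := mul_le_mul_of_nonneg_right hβ1 h1
      rw [pow_succ]
      nlinarith [mul_nonneg h1 hX0]
  have key : ∀ n, n ≤ m → ∃ (l : V → ℝ) (F : (V → C) → ℝ), (∀ x, 0 ≤ l x) ∧ WL R l F ∧
      Q ≤ |EE G c0 R (era L (nb G R h) b) F - EE G c0 R (era L (nb G R h) c) F| + l h ∧
      (∀ x ∈ insert h R, x ∉ U (m - n) → l x ≤ a n) ∧
      (∀ x ∈ U (m - n), l x ≤ (2 + X) ^ n) := by
    intro n
    induction n with
    | zero =>
      intro _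
      refine ⟨fun x => if x ∈ W then 1 else 0, adf W t, fun x => ?_, ?_, ?_, ?_, ?_⟩
      · dsimp only
        split_ifs
        · exact zero_le_one
        · exact le_rfl
      · intro x σ d
        have hWR : W ⊆ R := hW.trans (hUR m)
        by_cases hxW : x ∈ W
        · rw [if_pos (hWR hxW)]
          beta_reduce
          rw [if_pos hxW]
          unfold adf
          rw [← Finset.sum_sub_distrib, Finset.sum_eq_single_of_mem x hxW]
          · rw [Function.update_self]
            exact ht x d (σ x)
          · intro y _ hyx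
            rw [Function.update_of_ne hyx, sub_self]
        · have : adf W t (Function.update σ x d) = adf W t σ := by
            unfold adf
            refine Finset.sum_congr rfl fun y hy => ?_
            have : y ≠ x := fun e => hxW (e ▸ hy)
            rw [Function.update_of_ne this]
          rw [this, sub_self, abs_zero]
          beta_reduce
          rw [if_neg hxW]
          split_ifs <;> exact le_rfl
      · have hhW : h ∉ W := fun e => hh (hUR m (hW e))
        beta_reduce
        rw [if_neg hhW, add_zero]
      · intro x _ hx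
        have hxW : x ∉ W := fun e => hx (by simpa using hW e)
        simp [hxW, ha]
      · intro x _
        dsimp only
        rw [pow_zero]
        split_ifs
        · exact le_rfl
        · exact zero_le_one
    | succ n ih =>
      intro hn
      obtain ⟨l, F, h1, h2, h3, h4, h5⟩ := ih (by omega)
      have hM : 0 ≤ (2 + X) ^ n := by positivity
      obtain ⟨l', F', g1, g2, g3, g4, g5⟩ := sweep G c0 s R L h b c hs hh (hLb b) (hLb c) l h1 F h2 Q
        ((2 + X) ^ n) hM h3 (U (m - n)) (hUR _) (hUi (m - n) (by omega) (by omega)) h5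
        (U (m - n)) (Finset.Subset.refl _)
      have hmn : m - (n + 1) = m - n - 1 := by omega
      refine ⟨l', F', g1, g2, g3, ?_, ?_⟩
      · intro x hx hxU
        by_cases hxn : x ∈ U (m - n)
        · rw [g4 x hxn]; exact ha0 _
        · have e1 := g5 x hxn
          have e2 := h4 x hx hxn
          have e3 := hUβ (m - n) (by omega) (by omega) x hx (by rwa [← hmn])
          rw [ha1]
          have e4 : ((nb G (U (m - n)) x).card : ℝ) * ((2 + X) ^ n / s) ≤ β * (2 + X) ^ n := by
            rw [mul_div_assoc', div_le_iff₀ hsR]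
            nlinarith
          linarith
      · intro x hxU
        have hxR : x ∈ R := hUR _ hxU
        by_cases hxn : x ∈ U (m - n)
        · rw [g4 x hxn]; positivity
        · have e1 := g5 x hxn
          have e2 := h4 x (Finset.mem_insert_of_mem hxR) hxn
          have e3 : ((nb G (U (m - n)) x).card : ℝ) ≤ X * s := by
            refine le_trans ?_ (hX x (Finset.mem_insert_of_mem hxR))
            have : nb G (U (m - n)) x ⊆ nb G R x := by
              intro y hy
              rw [mem_nb] at hy ⊢
              exact ⟨hUR _ hy.1, hy.2⟩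
            exact_mod_cast Finset.card_le_card this
          have e4 : ((nb G (U (m - n)) x).card : ℝ) * ((2 + X) ^ n / s) ≤ X * (2 + X) ^ n := by
            rw [mul_div_assoc', div_le_iff₀ hsR]
            nlinarith
          have e5 := haM n
          rw [pow_succ]
          nlinarith
  obtain ⟨l, F, h1, h2, h3, h4, _⟩ := key m le_rfl
  rw [Nat.sub_self, hU0] at h4
  have hla : ∀ x ∈ insert h R, l x ≤ a m := fun x hx => h4 x hx (Finset.notMem_empty x)
  have hdiff : |EE G c0 R (era L (nb G R h) b) F - EE G c0 R (era L (nb G R h) c) F| ≤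
      a m * A := by
    have hL := WL_lip h2 (a m) (fun x hx => hla x (Finset.mem_insert_of_mem hx)) (ha0 m)
    rcases (ha0 m).eq_or_lt with h0 | h0
    · -- constant function
      have hc : ∀ σ τ, F σ = F τ := by
        intro σ τ
        have := hL σ τ
        rw [← h0, zero_mul] at this
        exact sub_eq_zero.1 (abs_nonpos_iff.1 this)
      have hE := hIB F (fun σ τ => by
        rw [hc σ τ, sub_self, abs_zero]; positivity)
      obtain ⟨σ0⟩ : Nonempty (V → C) := ⟨fun _ => c0⟩
      have hne : ∀ d, (Col G c0 R (era L (nb G R h) d)).Nonempty := fun d =>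
        col_nonempty G c0 _ _ (Sl_mono G (by omega) _ _ (hLb d))
      have hEd : ∀ d, EE G c0 R (era L (nb G R h) d) F = F σ0 := by
        intro d
        unfold EE
        have : ∑ σ ∈ Col G c0 R (era L (nb G R h) d), F σ =
            ∑ σ ∈ Col G c0 R (era L (nb G R h) d), F σ0 :=
          Finset.sum_congr rfl fun σ _ => hc σ σ0
        rw [this, Finset.sum_const, nsmul_eq_mul]
        have hpos : ((Col G c0 R (era L (nb G R h) d)).card : ℝ) ≠ 0 := by
          exact_mod_cast (Finset.card_pos.2 (hne d)).ne'
        field_simp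
      rw [hEd, hEd, sub_self, abs_zero, ← h0, zero_mul]
    · have hF' : Lip R (fun σ => F σ / a m) := by
        intro σ τ
        rw [← sub_div, abs_div, abs_of_pos h0, div_le_iff₀ h0, mul_comm]
        exact hL σ τ
      have hE := hIB _ hF'
      have e1 : ∀ d, EE G c0 R (era L (nb G R h) d) (fun σ => F σ / a m) =
          EE G c0 R (era L (nb G R h) d) F / a m := by
        intro d
        unfold EE
        rw [← Finset.sum_div]
        ring
      rw [e1, e1, ← sub_div, abs_div, abs_of_pos h0, div_le_iff₀ h0] at hE
      linarith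
  have hlh := hla h (Finset.mem_insert_self h R)
  have hsum : ∑ j ∈ Finset.range m, (2 + X) ^ j ≤ (m : ℝ) * (2 + X) ^ m := by
    have : ∑ j ∈ Finset.range m, (2 + X) ^ j ≤ ∑ _j ∈ Finset.range m, (2 + X) ^ m := by
      refine Finset.sum_le_sum fun j hj => ?_
      exact pow_le_pow_right₀ (by linarith) (Finset.mem_range.1 hj).le
    rwa [Finset.sum_const, Finset.card_range, nsmul_eq_mul] at this
  have ham : a m ≤ β * ((m : ℝ) * (2 + X) ^ m) := mul_le_mul_of_nonneg_left hsum hβ0
  have : Q ≤ a m * (1 + A) := by nlinarith
  refine this.trans ?_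
  exact mul_le_mul_of_nonneg_right ham (by linarith)

end

end Pool.Agent.Y992.HL
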