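import Pool.Agent.Y992.HL.Stm
import Pool.Agent.Y514.HL.Zd
import Pool.Agent.H983R2.GD.Main

set_option autoImplicit false

/-! Project HL: from the influence bound to the mixing time. -/

namespace Pool.Agent.Y992.HL

open Finset Pool.Agent.H983R2.GC

theorem INF_of (h : S_INF') (ε : ℝ) (hε : 0 < ε) (B : ℕ) :
    ∃ (K s0 : ℕ) (A : ℝ), 2 ≤ s0 ∧ 0 ≤ A ∧
      ∀ (V C : Type) [Fintype V] [DecidableEq V] [Fintype C] [DecidableEq C]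
        (G : SimpleGraph V) (D : V → V → ℕ) (c0 : C) (s Δ : ℕ), s0 ≤ s → ε * (Δ : ℝ) ≤ s →
        GD G D B K → (∀ w, (nb G univ w).card ≤ Δ) → INF G c0 s A := by
  obtain ⟨K, s0, l, A, h1, h2, h3, h4⟩ := h (min ε 1) (lt_min hε one_pos) (min_le_right _ _) B
  refine ⟨K, s0, A, h1, h2, ?_⟩
  intro V C _ _ _ _ G D c0 s Δ hs hΔ hG hd R L v b c F hv hL hLS hF
  have hΔ' : min ε 1 * (Δ : ℝ) ≤ s :=
    (mul_le_mul_of_nonneg_right (min_le_left _ _) (Nat.cast_nonneg _)).trans hΔ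
  have := h4 V C G D c0 s Δ hs hΔ' hG hd R.card 0 R L v b c F R le_rfl hv hL hLS
    (Finset.Subset.refl _) hF (fun w _ => Nat.zero_le _)
  simpa using this

theorem final_HL (h : S_INF') (ε : ℝ) (hε : 0 < ε) (B : ℕ) :
    ∃ K s0 : ℕ, ∀ Δ q : ℕ, Δ + s0 ≤ q → (1 + ε) * (Δ : ℝ) ≤ (q : ℝ) → ∃ A : ℝ, 0 < A ∧
      ∀ (V : Type) [Fintype V] [DecidableEq V] (G : SimpleGraph V),
      (∃ D : V → V → ℕ, GD G D B K) → (∀ v, (G.neighborSet v).ncard ≤ Δ) →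
      2 ≤ Fintype.card V →
      (∀ σ : PCol G q, tv ((P G q ^ tmix G q) σ) (unif G q) ≤ 1 / 4) ∧
      (tmix G q : ℝ) ≤ A * (Fintype.card V * Real.log (Fintype.card V)) := by
  classical
  obtain ⟨K, s0, A, hs0, hA, hI⟩ := INF_of h ε hε B
  refine ⟨K, s0, fun Δ q hq hq2 => ?_⟩
  exact main_of_INF Δ q (q - Δ) (by omega) (by omega) A hA
      (fun V G => ∃ D : V → V → ℕ, GD G D B K) (fun V _ _ G c0 hQ hdeg => by
        obtain ⟨D, hD⟩ := hQ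
        refine hI V (Fin q) G D c0 (q - Δ) Δ (by omega) ?_ hD hdeg
        have h1 : ((q - Δ : ℕ) : ℝ) = (q : ℝ) - (Δ : ℝ) := by
          rw [Nat.cast_sub (by omega)]
        rw [h1]
        linarith)

/-- Large differences. -/
theorem gap (ε : ℝ) (hε : 0 < ε) (s0 : ℕ) : ∃ Δ0 : ℕ, ∀ Δ q : ℕ, Δ0 ≤ Δ →
    (1 + ε) * (Δ : ℝ) ≤ (q : ℝ) → Δ + s0 ≤ q := by
  refine ⟨⌈(s0 : ℝ) / ε⌉₊, fun Δ q h1 h2 => ?_⟩
  have h3 : (s0 : ℝ) / ε ≤ Δ := (Nat.le_ceil _).trans (by exact_mod_cast h1)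
  rw [div_le_iff₀ hε] at h3
  have h4 : ((Δ + s0 : ℕ) : ℝ) ≤ (q : ℝ) := by push_cast; linarith
  exact_mod_cast h4

theorem final_cube (h : S_INF') (ε : ℝ) (hε : 0 < ε) :
    ∃ Δ0 : ℕ, ∀ Δ q : ℕ, Δ0 ≤ Δ → (1 + ε) * (Δ : ℝ) ≤ (q : ℝ) → ∃ A : ℝ, 0 < A ∧
      ∀ (N : ℕ) (V : Type) [Fintype V] [DecidableEq V] (G : SimpleGraph V)
      (x : V → Fin N → Bool), Function.Injective x →
      (∀ u w, G.Adj u w → (univ.filter (fun i => x u i ≠ x w i)).card = 1) →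
      (∀ v, (G.neighborSet v).ncard ≤ Δ) → 2 ≤ Fintype.card V →
      (∀ σ : PCol G q, tv ((P G q ^ tmix G q) σ) (unif G q) ≤ 1 / 4) ∧
      (tmix G q : ℝ) ≤ A * (Fintype.card V * Real.log (Fintype.card V)) := by
  obtain ⟨K, s0, h1⟩ := final_HL h ε hε 1
  obtain ⟨Δ0, h2⟩ := gap ε hε s0
  refine ⟨Δ0, fun Δ q hΔ hq => ?_⟩
  obtain ⟨A, hA, h3⟩ := h1 Δ q (h2 Δ q hΔ hq) hq
  exact ⟨A, hA, fun N V _ _ G x hx hG hd hV =>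
    h3 V G ⟨_, Pool.Agent.Y514.HL.gd_cube N V G x hx hG K⟩ hd hV⟩

theorem final_Zd (h : S_INF') (ε : ℝ) (hε : 0 < ε) :
    ∃ d0 : ℕ, ∀ d q : ℕ, d0 ≤ d → (1 + ε) * (2 * (d : ℝ)) ≤ (q : ℝ) → ∃ A : ℝ, 0 < A ∧
      ∀ (V : Type) [Fintype V] [DecidableEq V] (G : SimpleGraph V)
      (x : V → Fin d → ℤ), Function.Injective x →
      (∀ u w, G.Adj u w → ∑ i, |x u i - x w i| = 1) → 2 ≤ Fintype.card V →
      (∀ σ : PCol G q, tv ((P G q ^ tmix G q) σ) (unif G q) ≤ 1 / 4) ∧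
      (tmix G q : ℝ) ≤ A * (Fintype.card V * Real.log (Fintype.card V)) := by
  obtain ⟨K, s0, h1⟩ := final_HL h ε hε 1
  obtain ⟨Δ0, h2⟩ := gap ε hε s0
  refine ⟨Δ0, fun d q hd hq => ?_⟩
  have hq' : (1 + ε) * ((2 * d : ℕ) : ℝ) ≤ (q : ℝ) := by push_cast; exact hq
  obtain ⟨A, hA, h3⟩ := h1 (2 * d) q (h2 (2 * d) q (by omega) hq') hq'
  exact ⟨A, hA, fun V _ _ G x hx hG hV =>
    h3 V G ⟨_, Pool.Agent.Y514.HL.gd_Zd d V G x hx hG K⟩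
      (Pool.Agent.Y514.HL.deg_Zd d V G x hx hG) hV⟩

end Pool.Agent.Y992.HL
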