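import Pool.Agent.Y992.HL.Ni
import Pool.Agent.Y992.HL.Main
import Pool.Agent.Y992.HL.Fin
import Pool.Agent.Y275.HL.ERR
import Pool.Agent.Y275.HL.BR
import Pool.Agent.Y434.HL.BFS
import Pool.Agent.Y891.HL.Erru
import Pool.Agent.Y891.HL.Rev
import Pool.Agent.Y858.HL.Lev
import Pool.Agent.Y929.HL.Num
import Pool.Agent.W578.UG.Tel
import Pool.Agent.W341.UG.Prb
import Pool.Agent.W405.UG.Osc
import Pool.Agent.W85.UG.Kb
import Pool.Agent.W91.UG.Step
import Pool.Agent.W800.UG.Hs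

set_option autoImplicit false

/-! Project HL: everything together. -/

namespace Pool.Agent.Y992.HL

open Pool.Agent.H983R2.GC Pool.Agent.W341.UG

/-- The influence bound with exponential decay. -/
theorem s_inf : S_INF' := by
  have hT := Pool.Agent.W578.UG.t_TEL
  have hP := t_PRB
  have hOL := Pool.Agent.W405.UG.t_OSCL
  have hTB := t_TELB hT hP
  have hU := Pool.Agent.Y891.HL.t_ERRU' hTB
  have hE := Pool.Agent.Y275.HL.t_ERRP' hT hP
  have hK := Pool.Agent.Y275.HL.t_ERRK' hT hP hU hE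
  have hZ := Pool.Agent.Y275.HL.t_ERRZ' hT hP hE
  have hKB := Pool.Agent.W85.UG.t_KB
  have hS := Pool.Agent.W91.UG.t_STEP hKB
  have h0 := Pool.Agent.Y858.HL.t_LV0' hP
  have hLV := Pool.Agent.Y858.HL.t_LV' hK hZ hS hP
  have hLI := Pool.Agent.Y858.HL.t_LINF' hK hKB hP
  have hLY := Pool.Agent.Y891.HL.t_LY'
  have hB := Pool.Agent.Y434.HL.t_BFS' hLY hOL hTB
  have hR := Pool.Agent.Y891.HL.t_REV' hB hLY hOL
  exact main_HL h0 hLV hLI hR hLY Pool.Agent.Y929.HL.t_NUM' Pool.Agent.W800.UG.t_HS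
    (Pool.Agent.Y275.HL.t_BR t_NI)

end Pool.Agent.Y992.HL
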