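import Pool.Agent.W341.UG.Stm

set_option autoImplicit false

/-! Project HL (owner helper992): Glauber dynamics for `q ≥ (1+ε)Δ` colours on graphs with few
backward neighbours (finite pieces of `Z^d`, hypercubes, ...): definitions and statements. -/

namespace Pool.Agent.Y992.HL

open Finset Pool.Agent.H983R2.GC Pool.Agent.W341.UG

/-- A distance-like function `D` on the graph `G` (symmetric, zero exactly on the diagonal, changing
by at most one along an edge) such that up to radius `K` there are no edges inside the spheres and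
a vertex `x` has at most `B * D v x` neighbours `y` with `D v y ≤ D v x`. -/
structure GD {V : Type} (G : SimpleGraph V) (D : V → V → ℕ) (B K : ℕ) : Prop where
  symm : ∀ v w, D v w = D w v
  zero : ∀ v w, D v w = 0 ↔ v = w
  lip : ∀ v x y, G.Adj x y → D v x ≤ D v y + 1
  ne : ∀ v x y, D v x ≤ K → G.Adj x y → D v x ≠ D v y
  back : ∀ v x, D v x ≤ K → ∀ S : Finset V, (∀ y ∈ S, G.Adj x y ∧ D v y ≤ D v x) →
    S.card ≤ B * D v x

section

variable {V C : Type} [Fintype V] [DecidableEq V] [Fintype C] [DecidableEq C]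

/-- Influence bound: regions with at most `N` vertices, Lipschitz functions of the vertices in a
set `W` at `D`-distance at least `j` from the removed vertex `v`. -/
def IBD (G : SimpleGraph V) (D : V → V → ℕ) (c0 : C) (s N j : ℕ) (A : ℝ) : Prop :=
  ∀ (R : Finset V) (L : V → Finset C) (v : V) (b c : C) (F : (V → C) → ℝ) (W : Finset V),
    R.card ≤ N → v ∉ R → Sl G s R L → SlP G s R (nb G R v) L → W ⊆ R → Lip W F →
    (∀ w ∈ W, j ≤ D v w) →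
    |EE G c0 R (era L (nb G R v) b) F - EE G c0 R (era L (nb G R v) c) F| ≤ A

/-- The influence of a removed vertex `h` on additive functions of the vertices of `U` is at most
`δ`, in all regions contained in `R`. -/
def SmI (G : SimpleGraph V) (c0 : C) (s : ℕ) (R : Finset V) (h : V) (U : Finset V) (δ : ℝ) :
    Prop :=
  ∀ (R' : Finset V) (L : V → Finset C) (b c : C) (t : V → C → ℝ) (U' : Finset V),
    R' ⊆ R → h ∉ R' → Sl G s R' L → SlP G s R' (nb G R' h) L → Osc t → U' ⊆ U → U' ⊆ R' →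
    |EE G c0 R' (era L (nb G R' h) b) (adf U' t) -
      EE G c0 R' (era L (nb G R' h) c) (adf U' t)| ≤ δ

/-- The parts of `W` seen by the neighbours of the removed vertex `v`. -/
structure BrD (G : SimpleGraph V) (c0 : C) (s : ℕ) (R : Finset V) (v : V) (W : Finset V)
    (Wg : V → Finset V) (δ : ℝ) : Prop where
  sub : ∀ g ∈ nb G R v, Wg g ⊆ W
  slf : ∀ g ∈ nb G R v, g ∉ W \ Wg g
  slo : ∀ g ∈ nb G R v, ∀ h ∈ nb G R v, g ≠ h → h ∉ Wg g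
  far : ∀ g ∈ nb G R v, SmI G c0 s (R.erase g) g (W \ Wg g) δ
  ovl : ∀ g ∈ nb G R v, ∀ h ∈ nb G R v, g ≠ h → SmI G c0 s (R.erase h) h (Wg g) δ
  sib : ∀ g ∈ nb G R v, SmI G c0 s (R.erase g) g ((nb G R v).erase g) δ

/-- Bounds for the influence of a vertex on level `k`, regions with at most `N` vertices. -/
def LVD (G : SimpleGraph V) (D : V → V → ℕ) (c0 : C) (s N k : ℕ) (b r M : ℝ) : Prop :=
  ∀ (R : Finset V) (L : V → Finset C) (f : V) (W : Finset V) (t : V → C → ℝ),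
    R.card ≤ N → f ∈ R → Sl G s R L → W ⊆ R → (∀ w ∈ W, D f w = k) → Osc t →
    (∑ c, pr G c0 R L f c * (uu G c0 R L (adf W t) f c) ^ 2 ≤ b ^ 2) ∧
    (∀ c, (s : ℝ) * pr G c0 R L f c * (uu G c0 R L (adf W t) f c) ^ 2 ≤ r ^ 2) ∧
    (∀ c, |uu G c0 R L (adf W t) f c| ≤ M)

/-- The structure needed at level `k + 1`, for all regions with at most `N + 1` vertices. -/
def BRN (G : SimpleGraph V) (D : V → V → ℕ) (c0 : C) (s N k : ℕ) (δ : ℝ) : Prop :=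
  ∀ (R : Finset V) (v : V) (W : Finset V), R.card ≤ N + 1 → v ∉ R → W ⊆ R →
    (∀ w ∈ W, D v w = k + 1) → BrD G c0 s R v W (fun g => W.filter (fun w => D g w = k)) δ

open Classical in
/-- Layers around `v` inside `R`. -/
noncomputable def lyD (G : SimpleGraph V) (D : V → V → ℕ) (R : Finset V) (v : V) :
    ℕ → Finset V
  | 0 => {v}
  | i + 1 => R.filter (fun y => D v y = i + 1 ∧ ∃ x ∈ lyD G D R v i, G.Adj x y)

end

/-! ### Near independence -/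

/-- Near independence: additive functions of a set `W ⊆ U m`, where `U 0 = ∅` and outside
`U (i - 1)` every vertex (the removed vertex `h` included) has at most `β s` neighbours in
`U i`. -/
def S_NI : Prop := ∀ (V C : Type) [Fintype V] [DecidableEq V] [Fintype C] [DecidableEq C]
  (G : SimpleGraph V) (c0 : C) (s m : ℕ) (R : Finset V) (L : V → Finset C) (h : V) (b c : C)
  (U : ℕ → Finset V) (W : Finset V) (t : V → C → ℝ) (β X A : ℝ),
  1 ≤ s → h ∉ R → Sl G s R L → SlP G s R (nb G R h) L → U 0 = ∅ → (∀ i, U i ⊆ R) →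
  (∀ i, 1 ≤ i → i ≤ m → ∀ x ∈ U i, ∀ y ∈ U i, ¬ G.Adj x y) →
  (∀ i, 1 ≤ i → i ≤ m → ∀ x ∈ insert h R, x ∉ U (i - 1) → ((nb G (U i) x).card : ℝ) ≤ β * s) →
  (∀ x ∈ insert h R, ((nb G R x).card : ℝ) ≤ X * s) → 0 ≤ β → β ≤ 1 → 0 ≤ X → 0 ≤ A →
  W ⊆ U m → Osc t →
  (∀ F : (V → C) → ℝ, Lip R F →
    |EE G c0 R (era L (nb G R h) b) F - EE G c0 R (era L (nb G R h) c) F| ≤ A) →
  |EE G c0 R (era L (nb G R h) b) (adf W t) - EE G c0 R (era L (nb G R h) c) (adf W t)| ≤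
    β * ((m : ℝ) * (2 + X) ^ m) * (1 + A)

/-- The structure from near independence. -/
def S_BR : Prop := ∀ (V C : Type) [Fintype V] [DecidableEq V] [Fintype C] [DecidableEq C]
  (G : SimpleGraph V) (D : V → V → ℕ) (c0 : C) (s Δ N k K B : ℕ) (ε A : ℝ),
  1 ≤ s → 0 < ε → 0 ≤ A → GD G D B K → k + 2 ≤ K → (∀ w, (nb G univ w).card ≤ Δ) →
  ε * (Δ : ℝ) ≤ s → B * (k + 2) ≤ s → IBD G D c0 s N 0 A →
  BRN G D c0 s N k (2 * (((B : ℝ) * ((k : ℝ) + 2) / s) *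
    (((k : ℝ) + 1) * (2 + 1 / ε) ^ (k + 1)) * (1 + A)))

/-! ### Errors in the recursion -/

/-- The influence of `g` changes little when the colour `c` is erased at its siblings. -/
def S_ERRU' : Prop := ∀ (V C : Type) [Fintype V] [DecidableEq V] [Fintype C] [DecidableEq C]
  (G : SimpleGraph V) (c0 : C) (s : ℕ) (δ : ℝ), 2 ≤ s → 0 ≤ δ →
  ∀ (R : Finset V) (L : V → Finset C) (v : V) (c : C) (W : Finset V) (Wg : V → Finset V)
    (t : V → C → ℝ), v ∉ R → Sl G s R L → SlP G s R (nb G R v) L →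
    W ⊆ R → Osc t → BrD G c0 s R v W Wg δ →
    ∀ g ∈ nb G R v, ∀ T ⊆ (nb G R v).erase g,
      |uu G c0 R (era L T c) (adf (Wg g) t) g c - uu G c0 R L (adf (Wg g) t) g c| ≤
        2 * ((T.card : ℝ) / s) * δ

/-- The marginals at the other siblings change little when the colour `c` is erased at `i`. -/
def S_ERRP' : Prop := ∀ (V C : Type) [Fintype V] [DecidableEq V] [Fintype C] [DecidableEq C]
  (G : SimpleGraph V) (c0 : C) (s : ℕ) (δ : ℝ), 2 ≤ s → 0 ≤ δ →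
  ∀ (R : Finset V) (L : V → Finset C) (v : V) (c : C) (W : Finset V) (Wg : V → Finset V),
    v ∉ R → Sl G s R L → SlP G s R (nb G R v) L → BrD G c0 s R v W Wg δ →
    ∀ T ⊆ nb G R v, ∀ i ∈ nb G R v, i ∉ T →
      ∑ g ∈ nb G R v \ insert i T,
        |pr G c0 R (era L (insert i T) c) g c - pr G c0 R (era L T c) g c| ≤ δ / s

/-- The recursion for influences with error term. -/
def S_ERRK' : Prop := ∀ (V C : Type) [Fintype V] [DecidableEq V] [Fintype C] [DecidableEq C]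
  (G : SimpleGraph V) (c0 : C) (s : ℕ) (δ : ℝ), 2 ≤ s → 0 ≤ δ →
  ∀ (R : Finset V) (L : V → Finset C) (v : V) (c : C) (W : Finset V) (Wg : V → Finset V)
    (t : V → C → ℝ) (M : ℝ), v ∉ R → Sl G s R L → SlP G s R (nb G R v) L →
    W ⊆ R → Osc t → BrD G c0 s R v W Wg δ → 0 ≤ M →
    (∀ g ∈ nb G R v, |uu G c0 R L (adf (Wg g) t) g c| ≤ M) →
    |EE G c0 R (era L (nb G R v) c) (adf W t) - EE G c0 R L (adf W t) +
      ∑ g ∈ nb G R v, pr G c0 R L g c / (1 - pr G c0 R L g c) *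
        uu G c0 R L (adf (Wg g) t) g c| ≤
      ((nb G R v).card : ℝ) / s * δ * (1 + 2 * (((nb G R v).card : ℝ) / s) + 4 * M)

/-- The recursion for the marginals with error term. -/
def S_ERRZ' : Prop := ∀ (V C : Type) [Fintype V] [DecidableEq V] [Fintype C] [DecidableEq C]
  (G : SimpleGraph V) (c0 : C) (s : ℕ) (δ : ℝ), 2 ≤ s → 0 ≤ δ →
  ∀ (R : Finset V) (L : V → Finset C) (v : V) (c : C) (W : Finset V) (Wg : V → Finset V),
    v ∉ R → Sl G s R L → SlP G s R (nb G R v) L → BrD G c0 s R v W Wg δ →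
    Real.exp (-((1 + 1 / (s : ℝ)) * (∑ g ∈ nb G R v, pr G c0 R L g c +
      ((nb G R v).card : ℝ) / s * δ))) ≤ zz G c0 R (nb G R v) L c ∧
    zz G c0 R (nb G R v) L c ≤ Real.exp (-(∑ g ∈ nb G R v, pr G c0 R L g c) +
      ((nb G R v).card : ℝ) / s * δ)

/-! ### Levels -/

/-- Level zero. -/
def S_LV0' : Prop := ∀ (V C : Type) [Fintype V] [DecidableEq V] [Fintype C] [DecidableEq C]
  (G : SimpleGraph V) (D : V → V → ℕ) (c0 : C) (s N : ℕ), 2 ≤ s → (∀ v w, D v w = 0 ↔ v = w) →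
  LVD G D c0 s N 0 1 1 1

/-- From level `k` to level `k + 1`. -/
def S_LV' : Prop := ∀ (V C : Type) [Fintype V] [DecidableEq V] [Fintype C] [DecidableEq C]
  (G : SimpleGraph V) (D : V → V → ℕ) (c0 : C) (s Δ N k : ℕ) (ε δ b r M lam : ℝ),
  2 ≤ s → 0 ≤ δ → 0 < ε → 0 ≤ b → 0 ≤ r → 0 ≤ M → 0 ≤ lam →
  (∀ v w, D v w = 0 ↔ v = w) → (∀ w, (nb G univ w).card ≤ Δ) →
  ε * (Δ : ℝ) ≤ s → BRN G D c0 s N k δ → LVD G D c0 s (N + 1) k b r M →
  1 / (1 + ε) * (1 + 1 / (s : ℝ)) ^ 2 * Real.exp (3 * (δ / ε) + 1 / (s : ℝ)) ≤ lam ^ 2 →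
  LVD G D c0 s (N + 2) (k + 1) (lam * b + δ / ε * (1 + 2 / ε + 4 * M))
    (lam * r + lam * b + 2 * (δ / ε * (1 + 2 / ε + 4 * M)))
    (2 / ε * r + lam * b + 2 * (δ / ε * (1 + 2 / ε + 4 * M)))

/-- Total influence of a removed vertex on level `k + 1`. -/
def S_LINF' : Prop := ∀ (V C : Type) [Fintype V] [DecidableEq V] [Fintype C] [DecidableEq C]
  (G : SimpleGraph V) (D : V → V → ℕ) (c0 : C) (s Δ N k : ℕ) (ε δ b r M : ℝ),
  2 ≤ s → 0 ≤ δ → 0 < ε → 0 ≤ b → 0 ≤ r → 0 ≤ M →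
  (∀ w, (nb G univ w).card ≤ Δ) →
  ε * (Δ : ℝ) ≤ s → BRN G D c0 s N k δ → LVD G D c0 s (N + 1) k b r M →
  ∀ (R : Finset V) (L : V → Finset C) (v : V) (b' c' : C) (W : Finset V),
    R.card ≤ N + 1 → v ∉ R → Sl G s R L → SlP G s R (nb G R v) L → W ⊆ R →
    (∀ w ∈ W, D v w = k + 1) →
    ∑ w ∈ W, ∑ a, |pr G c0 R (era L (nb G R v) b') w a - pr G c0 R (era L (nb G R v) c') w a| ≤
      4 * (2 / ε * r + δ / ε * (1 + 2 / ε + 4 * M))

/-! ### Layers, crude bound, revealing -/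

/-- Properties of layers. -/
def S_LY' : Prop := ∀ (V : Type) [Fintype V] [DecidableEq V] (G : SimpleGraph V)
  (D : V → V → ℕ) (Δ B K : ℕ), GD G D B K → (∀ w, (nb G univ w).card ≤ Δ) →
  ∀ (R : Finset V) (v : V), v ∉ R →
    (∀ i, (lyD G D R v i).card ≤ Δ ^ i) ∧
    (∀ i, ∀ w ∈ lyD G D R v i, D v w = i) ∧
    (∀ i, lyD G D R v (i + 1) ⊆ R) ∧
    (∀ i, ∀ w ∈ lyD G D R v i, ∀ y, D v y ≤ D w y + i) ∧
    (∀ k, ∀ w ∈ lyD G D R v (k + 1), lyD G D (R.erase w) v (k + 1) =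
      (lyD G D R v (k + 1)).erase w)

/-- The crude bound: one neighbour after the other, along paths. -/
def S_BFS' : Prop := ∀ (V C : Type) [Fintype V] [DecidableEq V] [Fintype C] [DecidableEq C]
  (G : SimpleGraph V) (D : V → V → ℕ) (c0 : C) (s Δ N k j B K : ℕ) (ε A om : ℝ),
  2 ≤ s → 0 < ε → 0 ≤ A → GD G D B K → k + 2 ≤ K →
  (∀ w, (nb G univ w).card ≤ Δ) → ε * (Δ : ℝ) ≤ s → IBD G D c0 s N j A →
  ∀ (R : Finset V) (L : V → Finset C) (v : V) (b c : C) (F : (V → C) → ℝ) (W : Finset V),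
    R.card ≤ N + 1 → v ∉ R → Sl G s R L → SlP G s R (nb G R v) L → W ⊆ R → Lip W F →
    ((om = 1 ∧ j = 0) ∨ (om = 0 ∧ 1 ≤ j ∧ ∀ w ∈ W, j + (k + 1) ≤ D v w)) →
    |EE G c0 R (era L (nb G R v) b) F - EE G c0 R (era L (nb G R v) c) F| ≤
      om * ∑ i ∈ Finset.range (k + 1), (2 / ε) ^ (i + 1) +
        (om + A) * ((2 / (s : ℝ)) * ((B : ℝ) * ((k : ℝ) + 1)) *
          ∑ i ∈ Finset.range (k + 1), (2 / ε) ^ i) +
        ((B : ℝ) * ((k : ℝ) + 1)) ^ (k + 1) * ((2 / (s : ℝ)) ^ (k + 1) *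
          ((lyD G D R v (k + 1)).card : ℝ)) * A

/-- Revealing the layer `k + 1` vertex by vertex. -/
def S_REV' : Prop := ∀ (V C : Type) [Fintype V] [DecidableEq V] [Fintype C] [DecidableEq C]
  (G : SimpleGraph V) (D : V → V → ℕ) (c0 : C) (s Δ N k j B K r0 : ℕ) (ε A om E : ℝ),
  2 ≤ s → 1 ≤ k → 0 < ε → 0 ≤ A → 0 ≤ E → GD G D B K → k + 2 ≤ K →
  (∀ w, (nb G univ w).card ≤ Δ) → ε * (Δ : ℝ) ≤ s → IBD G D c0 s N j A →
  (∀ (R : Finset V) (L : V → Finset C) (v : V) (b c : C) (W : Finset V),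
    R.card ≤ N + 1 → v ∉ R → Sl G s R L → SlP G s R (nb G R v) L → W ⊆ R →
    (∀ w ∈ W, D v w = k + 1) →
    ∑ w ∈ W, ∑ a, |pr G c0 R (era L (nb G R v) b) w a - pr G c0 R (era L (nb G R v) c) w a| ≤
      E) →
  ∀ (R : Finset V) (L : V → Finset C) (v : V) (b c : C) (F : (V → C) → ℝ) (W : Finset V),
    R.card ≤ N + 1 → v ∉ R → Sl G s R L → SlP G s R (nb G R v) L → W ⊆ R → Lip W F →
    ((om = 1 ∧ j = 0) ∨ (om = 0 ∧ 1 ≤ j ∧ ∀ w ∈ W, j + (k + 1) ≤ D v w)) →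
    |EE G c0 R (era L (nb G R v) b) F - EE G c0 R (era L (nb G R v) c) F| ≤
      om * ∑ i ∈ Finset.range (k + 1), (2 / ε) ^ (i + 1) +
        (om + A) * ((2 / (s : ℝ)) * ((B : ℝ) * ((k : ℝ) + 1)) *
          ∑ i ∈ Finset.range (k + 1), (2 / ε) ^ i) +
        ((B : ℝ) * ((k : ℝ) + 1)) ^ (k + 1) * ((2 / (s : ℝ)) ^ (k + 1) * (r0 : ℝ)) * A +
        (om + A) * (E * (Hs (max (lyD G D R v (k + 1)).card r0) - Hs r0))

/-! ### Numbers -/

/-- Choice of the parameters. -/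
def S_NUM' : Prop := ∀ ε : ℝ, 0 < ε → ε ≤ 1 → ∀ B : ℕ, ∃ (lam M δ θ A : ℝ) (k s0 : ℕ),
  0 < lam ∧ lam < 1 ∧ 0 ≤ M ∧ 0 < δ ∧ 0 < θ ∧ θ ≤ 1 ∧ 1 ≤ k ∧ 2 ≤ s0 ∧
  (∀ s : ℕ, s0 ≤ s →
    1 / (1 + ε) * (1 + 1 / (s : ℝ)) ^ 2 * Real.exp (3 * (δ / ε) + 1 / (s : ℝ)) ≤ lam ^ 2) ∧
  4 * (δ / ε * (1 + 2 / ε + 4 * M)) / (1 - lam) ^ 2 ≤ 1 ∧
  2 / ε * (1 / (1 - lam) + 1) + 4 ≤ M ∧
  A = 2 * (∑ i ∈ Finset.range (k + 1), (2 / ε) ^ (i + 1)) + 1 ∧
  (∀ s : ℕ, s0 ≤ s →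
    (2 / (s : ℝ)) * ((B : ℝ) * ((k : ℝ) + 1)) * (∑ i ∈ Finset.range (k + 1), (2 / ε) ^ i) +
      ((B : ℝ) * ((k : ℝ) + 1)) ^ (k + 1) *
        ((2 / ε) ^ (k + 1) * θ + (2 / (s : ℝ)) ^ (k + 1)) +
      4 * (2 / ε * (((k : ℝ) + 1) * lam ^ k +
        4 * (δ / ε * (1 + 2 / ε + 4 * M)) / (1 - lam) ^ 2) +
        δ / ε * (1 + 2 / ε + 4 * M)) * Real.log (1 / θ) ≤ 1 / 4) ∧
  (∀ s : ℕ, s0 ≤ s → B * (k + 2) ≤ s ∧
    2 * (((B : ℝ) * ((k : ℝ) + 2) / s) * (((k : ℝ) + 1) * (2 + 1 / ε) ^ (k + 1)) * (1 + A)) ≤ δ)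

/-! ### The main result -/

/-- The influence bound, uniformly in the maximum degree, with exponential decay. -/
def S_INF' : Prop := ∀ ε : ℝ, 0 < ε → ε ≤ 1 → ∀ B : ℕ, ∃ (K s0 l : ℕ) (A : ℝ),
  2 ≤ s0 ∧ 0 ≤ A ∧ 1 ≤ l ∧
  ∀ (V C : Type) [Fintype V] [DecidableEq V] [Fintype C] [DecidableEq C] (G : SimpleGraph V)
    (D : V → V → ℕ) (c0 : C) (s Δ : ℕ), s0 ≤ s → ε * (Δ : ℝ) ≤ s → GD G D B K →
    (∀ w, (nb G univ w).card ≤ Δ) → ∀ N j, IBD G D c0 s N j (A / 2 ^ (j / l))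

end Pool.Agent.Y992.HL
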